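import Pool.Agent.H93.PG.Targets

/-!
Row SA2 of the board pgs_modules (`MP_32ebde_an`): many words start and end with `eee`.
-/

set_option autoImplicit false

open MeasureTheory Filter Topology Finset

namespace Pool.Agent.H13.PG

open Pool.Agent.H93.PF Pool.Agent.H93.PG

/-- factors of words in `EE` -/
theorem EE_factor (m : ℕ → ℕ) (n a l : ℕ) (h : a + l ≤ n) (w : Fin n → Fin 2)
    (hw : w ∈ EE m n) : (fun x : Fin l => w ⟨a + x, by omega⟩) ∈ EE m l := by
  classical
  unfold EE FF at hw ⊢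
  rw [Finset.mem_filter, Finset.mem_filter] at hw ⊢
  obtain ⟨⟨_, h1⟩, h2⟩ := hw
  refine ⟨⟨Finset.mem_univ _, ?_⟩, ?_⟩
  · intro q i hq hi hP
    refine h1 q (a + i) hq (by omega) ?_
    intro j hj h3 h4
    have h5 := hP (j - a) (by omega) (by omega) (by omega)
    have e1 : a + (j - a + q) = j + q := by omega
    have e2 : a + (j - a) = j := by omega
    simp only [e1, e2] at h5
    exact h5
  · intro i hi hc
    exact h2 (a + i) (by omega) hc

theorem EE_mul (m : ℕ → ℕ) (i j : ℕ) :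
    (EE m (i + j)).card ≤ (EE m i).card * (EE m j).card := by
  classical
  rw [← Finset.card_product]
  refine Finset.card_le_card_of_injOn
    (fun w => (fun x : Fin i => w ⟨0 + x, by omega⟩, fun x : Fin j => w ⟨i + x, by omega⟩))
    (fun w hw => ?_) ?_
  · rw [Finset.mem_coe, Finset.mem_product]
    exact ⟨EE_factor m (i + j) 0 i (by omega) w hw, EE_factor m (i + j) i j le_rfl w hw⟩
  · intro w _ w' _ he
    obtain ⟨h1, h2⟩ := Prod.mk.inj he
    funext x
    by_cases hx : (x : ℕ) < i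
    · have := congrFun h1 ⟨x, hx⟩
      simpa using this
    · have h3 := congrFun h2 ⟨x - i, by omega⟩
      have e : i + ((x : ℕ) - i) = x := by omega
      simpa only [e] using h3

theorem EE_pos (hTMO : T_TMO) (m : ℕ → ℕ) (hm : ∀ q, 0 < q → 3 * q + 1 ≤ m q) (n : ℕ) :
    1 ≤ (EE m n).card := by
  classical
  refine Finset.card_pos.2 ⟨fun x => if tm x then 1 else 0, ?_⟩
  have hval : ∀ a b : ℕ, ((if tm a then 1 else 0 : Fin 2) = if tm b then 1 else 0) →
      tm a = tm b := by
    intro a b h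
    cases h1 : tm a <;> cases h2 : tm b <;> simp [h1, h2] at h ⊢
  unfold EE FF
  rw [Finset.mem_filter, Finset.mem_filter]
  refine ⟨⟨Finset.mem_univ _, ?_⟩, ?_⟩
  · intro q i hq hi hP
    obtain ⟨j, h1, h2, h3⟩ := hTMO q i hq
    have h4 := hm q hq
    exact h3 (hval _ _ (hP j (by omega) h1 (by omega)))
  · intro i hi hc
    obtain ⟨j, h1, h2, h3⟩ := hTMO 1 i one_pos
    have h4 : j = i ∨ j = i + 1 := by omega
    rcases h4 with rfl | rfl
    · exact h3 (hval _ _ hc.1.symm)
    · exact h3 (hval _ _ hc.2.symm)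

theorem pf_SA2 (hSUB : T_SUB) (hTMB : T_TMB) (hTMO : T_TMO) (hSA2A : T_SA2A)
    (hSA2B : T_SA2B) : T_SA2 := by
  intro m c H hm hGr hY
  obtain ⟨HE, _, h1, h2⟩ := hSUB (fun n => ((EE m n).card : ℝ))
    (fun n => by exact_mod_cast EE_pos hTMO m hm n)
    (fun i j => by exact_mod_cast EE_mul m i j)
  rcases lt_or_ge HE H with h | h
  · obtain ⟨C, hC⟩ := h2 ((H - HE) / 2) (by linarith)
    exact hSA2A m c H (HE + (H - HE) / 2) C hGr (by linarith) hY hC
  · refine hSA2B m c H hm hGr hY fun n => ?_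
    refine le_trans (Real.exp_le_exp.2 ?_) (h1 n)
    exact mul_le_mul_of_nonneg_right h (Nat.cast_nonneg n)

end Pool.Agent.H13.PG
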