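import Pool.Agent.H93.PG.Targets

/-!
Row TCE of the board pgs_modules (`MP_32ebde_an`): existence of good tiles.
-/

set_option autoImplicit false

open MeasureTheory Filter Topology Finset

namespace Pool.Agent.H13.PG

open Pool.Agent.H93.PF Pool.Agent.H93.PG

theorem pf_TCE (hLTR : T_LTR) (hTYP : T_TYP) (hCOL : T_COL) (hTCW : T_TCW) : T_TCE := by
  intro d m c H hGr hH hR h' hh' N n₀
  have hC := hCOL d m c.t H hGr hH (hTYP d m c.t H hGr hH (hLTR d m c.t H hH hR))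
  obtain ⟨a, ha⟩ : ∃ a : ℝ, a = max h' 0 := ⟨_, rfl⟩
  have ha0 : 0 ≤ a := ha ▸ le_max_right _ _
  have hah : h' ≤ a := ha ▸ le_max_left _ _
  have haH : a < H := ha ▸ max_lt hh' hH
  obtain ⟨b, hb⟩ : ∃ b : ℝ, b = (a + H) / 2 := ⟨_, rfl⟩
  have hab : a < b := by linarith
  have hbH : b < H := by linarith
  obtain ⟨η₀, hη₀, _, hC⟩ := hC b hbH
  obtain ⟨η, hη⟩ : ∃ η : ℝ, η = min η₀ (min (1 / 10 ^ 6) ((b - a) / (2000 * (a + 1)))) :=
    ⟨_, rfl⟩
  have hη1 : η ≤ η₀ := hη ▸ min_le_left _ _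
  have hη2 : η ≤ 1 / 10 ^ 6 := hη ▸ (min_le_right _ _).trans (min_le_left _ _)
  have hη3 : η ≤ (b - a) / (2000 * (a + 1)) := hη ▸ (min_le_right _ _).trans (min_le_right _ _)
  have hη0 : 0 < η := by
    rw [hη]
    refine lt_min hη₀ (lt_min (by norm_num) (div_pos (by linarith) (by linarith)))
  obtain ⟨n, hn, Q, pc, hQ, hcc⟩ := hC η hη0 hη1 N
    (n₀ + ⌈2 / η⌉₊ + ⌈4002 * a / (b - a)⌉₊ + 17 * (2001 + c.t.Y))
  obtain ⟨K, hK⟩ : ∃ K, K = ⌈η * n⌉₊ := ⟨_, rfl⟩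
  rw [← hK] at hcc
  have hnr : (0 : ℝ) ≤ n := Nat.cast_nonneg n
  have n1 : 2 / η ≤ n := (Nat.le_ceil _).trans (by
    exact_mod_cast (by omega : ⌈2 / η⌉₊ ≤ n))
  have n2 : 4002 * a / (b - a) ≤ n := (Nat.le_ceil _).trans (by
    exact_mod_cast (by omega : ⌈4002 * a / (b - a)⌉₊ ≤ n))
  have n3 : (17 : ℝ) * (2001 + c.t.Y) ≤ n := by
    exact_mod_cast (by omega : 17 * (2001 + c.t.Y) ≤ n)
  rw [div_le_iff₀ hη0] at n1
  rw [div_le_iff₀ (by linarith)] at n2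
  have hK1 : (K : ℝ) < η * n + 1 := by
    rw [hK]
    exact Nat.ceil_lt_add_one (by positivity)
  have hK2' : η * n ≤ (K : ℝ) := by
    rw [hK]
    exact Nat.le_ceil _
  have hK2 : 2 ≤ K := by
    have : (2 : ℝ) ≤ K := by linarith
    exact_mod_cast this
  obtain ⟨N0, k1, k2, hf⟩ := c.frm K hK2
  have hN0 : (N0 : ℝ) ≤ 1000 * (K + 1) := by exact_mod_cast hf.sz
  have hηn : η * n ≤ 1 / 10 ^ 6 * n := mul_le_mul_of_nonneg_right hη2 hnr
  have hbig : 16 * (N0 + c.t.Y + K) ≤ n := by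
    have : (16 : ℝ) * (N0 + c.t.Y + K) ≤ n := by
      norm_num at hηn
      linarith
    exact_mod_cast this
  obtain ⟨tc, h1, h2⟩ := hTCW d m c
    { K := K, n := n, N := N, Q := Q, N0 := N0, k1 := k1, k2 := k2, K2 := hK2, fr := hf, pc := pc,
      cc := hcc, big := hbig }
  have h1' : tc.L = n + N0 := h1
  have h2' : tc.Q = Q := h2
  refine ⟨tc, ?_, ?_⟩
  · rw [h1']
    omega
  · rw [h1', h2']
    refine le_trans (Real.exp_le_exp.2 ?_) hQ
    have e1 : h' * (((n + N0 : ℕ) : ℝ) + 1) ≤ a * (((n + N0 : ℕ) : ℝ) + 1) :=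
      mul_le_mul_of_nonneg_right hah (by positivity)
    refine e1.trans ?_
    push_cast
    have e2 : 1000 * η * a ≤ (b - a) / 2 := by
      rw [le_div_iff₀ (by linarith)] at hη3
      have : 0 ≤ η * 2000 := by positivity
      nlinarith
    have e3 : a * ((n : ℝ) + N0 + 1) ≤ a * (n + (1000 * (η * n + 1 + 1)) + 1) :=
      mul_le_mul_of_nonneg_left (by linarith) ha0
    refine e3.trans ?_
    have e4 : 1000 * η * a * n ≤ (b - a) / 2 * n := mul_le_mul_of_nonneg_right e2 hnr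
    nlinarith

end Pool.Agent.H13.PG
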